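import Mathlib
import Pool.Agent.N178.HX.StmG
import Pool.Agent.R915.M2
import Pool.Agent.R915.G6

/-!
# The unbalanced quadratic fields of a simple abelian variety
-/

set_option linter.unusedSectionVars false

namespace Pool.Agent.N438.HX

open Matrix Module Pool.Agent.Y90 Pool.Agent.R915 Pool.Agent.W437.HC Pool.Agent.W437.HD
open Pool.Agent.W548.Odd hiding cv
open Pool.Agent.W437.HP (cK cK_mul cK_one)
open Pool.Agent.H204R3.CM (IsHodge)

noncomputable section

/-! ### Isogenies -/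

/-- Isogenies preserve simplicity. -/
theorem simple_iso {X Y : AV} (e : X.H ≃ₗ[ℚ] Y.H) (he : IsHom X Y e.toLinearMap)
    (hX : IsSimple X) : IsSimple Y := by
  obtain ⟨⟨x, hx⟩, hs⟩ := hX
  obtain ⟨Φ, hΦ⟩ := he
  have h5 : Function.Surjective Φ := tan_surj hΦ e.surjective
  have h6 : finrank ℂ X.T = finrank ℂ Y.T := by
    have h3 := e.finrank_eq
    rw [X.rank, Y.rank] at h3
    omega
  have h7 : Function.Injective Φ :=
    (LinearMap.injective_iff_surjective_of_finrank_eq_finrank h6).2 h5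
  refine ⟨⟨e x, fun h0 => hx ?_⟩, fun U hU => ?_⟩
  · exact (LinearEquiv.map_eq_zero_iff e).1 h0
  have key : Submodule.span ℝ (Y.per '' (U : Set Y.H)) =
      (Submodule.span ℝ (X.per '' ((U.comap e.toLinearMap : Submodule ℚ X.H) : Set X.H))).map
        (Φ.restrictScalars ℝ) := by
    rw [Submodule.map_span]
    congr 1
    ext t
    constructor
    · rintro ⟨y, hy, rfl⟩
      refine ⟨X.per (e.symm y), ⟨e.symm y, ?_, rfl⟩, ?_⟩
      · change e (e.symm y) ∈ U
        rw [e.apply_symm_apply]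
        exact hy
      · change Φ (X.per (e.symm y)) = Y.per y
        rw [hΦ]
        exact congrArg Y.per (e.apply_symm_apply y)
    · rintro ⟨_, ⟨v, hv, rfl⟩, rfl⟩
      exact ⟨e v, hv, (hΦ v).symm⟩
  have hsub : IsSub X (U.comap e.toLinearMap) := by
    intro x hx
    have h1 : Φ x ∈ Submodule.span ℝ (Y.per '' (U : Set Y.H)) := by
      rw [key]
      exact ⟨x, hx, rfl⟩
    have h2 := hU _ h1
    rw [key] at h2
    obtain ⟨x', hx', h3⟩ := h2
    have h4 : Φ x' = Φ (Complex.I • x) := by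
      rw [map_smul]
      exact h3
    rw [← h7 h4]
    exact hx'
  rcases hs _ hsub with h8 | h8
  · left
    rw [eq_bot_iff]
    intro y hy
    have h9 : e.symm y ∈ U.comap e.toLinearMap := by
      change e (e.symm y) ∈ U
      rw [e.apply_symm_apply]
      exact hy
    rw [h8, Submodule.mem_bot] at h9
    rw [Submodule.mem_bot]
    exact (LinearEquiv.map_eq_zero_iff e.symm).1 h9
  · right
    rw [eq_top_iff]
    intro y _
    have h9 : e.symm y ∈ U.comap e.toLinearMap := by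
      rw [h8]
      trivial
    have h10 : e (e.symm y) ∈ U := h9
    rwa [e.apply_symm_apply] at h10

/-- Isogenies preserve the maximal real subfields. -/
theorem realMax_iso {X Y : AV} (e : X.H ≃ₗ[ℚ] Y.H) (he : IsHom X Y e.toLinearMap)
    (hes : IsHom Y X e.symm.toLinearMap) {a : Module.End ℚ X.H} (h : RealMax X a) :
    ∃ a', RealMax Y a' := by
  obtain ⟨h1, h2, h3⟩ := h
  let c : Module.End ℚ X.H ≃ₐ[ℚ] Module.End ℚ Y.H := e.conjAlgEquiv ℚ
  have hc : ∀ f, c f = e.toLinearMap.comp (f.comp e.symm.toLinearMap) := fun f =>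
    LinearMap.ext fun _ => rfl
  have hcs : ∀ f, c.symm f = e.symm.toLinearMap.comp (f.comp e.toLinearMap) := fun f =>
    LinearMap.ext fun _ => rfl
  refine ⟨c a, ?_, fun z hz => ?_, fun b hb hba => ?_⟩
  · rw [hc]
    exact IsHom.comp' he (IsHom.comp' h1 hes)
  · have h4 := minpoly.algEquiv_eq c a
    rw [h4] at hz
    exact h2 z hz
  · have h5 := h3 (c.symm b) (by
      rw [hcs]
      exact IsHom.comp' hes (IsHom.comp' hb he)) (by
      apply c.injective
      rw [map_mul, map_mul, c.apply_symm_apply, hba])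
    rw [Algebra.adjoin_singleton_eq_range_aeval] at h5 ⊢
    obtain ⟨p, hp⟩ := h5
    refine ⟨p, ?_⟩
    change Polynomial.aeval a p = c.symm b at hp
    change Polynomial.aeval (c a) p = b
    have h6 : Polynomial.aeval (c a) p = c (Polynomial.aeval a p) :=
      Polynomial.aeval_algHom_apply c.toAlgHom _ _
    rw [h6, hp, c.apply_symm_apply]

/-- Each abelian variety is isogenous to one given by a period matrix. -/
theorem exists_iso (Y : AV) : ∃ (g : ℕ) (Z : Matrix (Fin g) (Fin g) ℂ) (h : PM Z)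
    (e : Y.H ≃ₗ[ℚ] (AVZ h).H), IsHom Y (AVZ h) e.toLinearMap ∧
      IsHom (AVZ h) Y e.symm.toLinearMap := by
  obtain ⟨g, Z, h, A, hC'⟩ := exists_ppav (AV.isAV Y)
  obtain ⟨Ψ₁, h₁⟩ := h.cht.hom hC' (R := 1) (by rw [cK_one, Matrix.one_mul, Matrix.mul_one])
  obtain ⟨Ψ₂, h₂⟩ := hC'.hom h.cht (R := 1) (by rw [cK_one, Matrix.one_mul, Matrix.mul_one])
  have e₁ : ∀ w, Ψ₁ (perOne Z w) = Y.per (A.symm w) := fun w => by
    rw [h₁, one_mulVec]
    rfl
  have e₂ : ∀ v, Ψ₂ (Y.per v) = perOne Z (A v) := fun v => by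
    have h3 := h₂ (A v)
    have h4 : (Y.per.comp A.symm.toLinearMap.toAddMonoidHom) (A v) = Y.per v := by
      change Y.per (A.symm (A v)) = Y.per v
      rw [LinearEquiv.symm_apply_apply]
    rwa [h4, one_mulVec] at h3
  exact ⟨g, Z, h, A, ⟨Ψ₂, e₂⟩, ⟨Ψ₁, e₁⟩⟩

/-! ### Traces -/

section Z

variable {g : ℕ} {Z : Matrix (Fin g) (Fin g) ℂ} (h : PM Z)

/-- Traces are additive. -/
theorem tr_split {M C Y : Submodule ℂ (Fin g ⊕ Fin g → ℂ)} (hM : Stab (LZ Z) M)
    (hC : Stab (LZ Z) C) (h1 : M ⊓ C = ⊥) (h2 : M ⊔ C = Y) : tr Z M + tr Z C = tr Z Y := by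
  have key : ∀ c : ℂ, finrank ℂ (M ⊓ eig Z c : Submodule ℂ (Fin g ⊕ Fin g → ℂ)) +
      finrank ℂ (C ⊓ eig Z c : Submodule ℂ (Fin g ⊕ Fin g → ℂ)) =
      finrank ℂ (Y ⊓ eig Z c : Submodule ℂ (Fin g ⊕ Fin g → ℂ)) := by
    intro c
    refine finrank_split ?_ ?_
    · rw [eq_bot_iff, ← h1]
      exact inf_le_inf inf_le_left inf_le_left
    · apply le_antisymm
      · rw [← h2]
        exact sup_le (inf_le_inf_right _ le_sup_left) (inf_le_inf_right _ le_sup_right)
      · rintro v ⟨hv, hv'⟩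
        rw [← h2] at hv
        obtain ⟨m, hm, k, hk, rfl⟩ := Submodule.mem_sup.1 hv
        have hv2 : DZ Z *ᵥ (m + k) = c • (m + k) := hv'
        rw [mulVec_add, smul_add] at hv2
        have e1 : DZ Z *ᵥ m - c • m ∈ M ⊓ C := by
          refine ⟨M.sub_mem (hM _ DZ_mem m hm) (M.smul_mem _ hm), ?_⟩
          have e2 : DZ Z *ᵥ m - c • m = c • k - DZ Z *ᵥ k := by
            rw [sub_eq_sub_iff_add_eq_add, hv2, add_comm]
          rw [SetLike.mem_coe, e2]
          exact C.sub_mem (C.smul_mem _ hk) (hC _ DZ_mem k hk)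
        rw [h1, Submodule.mem_bot, sub_eq_zero] at e1
        rw [e1, add_right_inj] at hv2
        exact Submodule.add_mem_sup ⟨hm, e1⟩ ⟨hk, hv2⟩
  have e1 := key 1
  have e2 := key (-1)
  unfold tr pd qd
  omega

include h in
/-- A submodule whose trace is not zero contains an irreducible one. -/
theorem exists_irr_tr (n : ℕ) : ∀ Y : Submodule ℂ (Fin g ⊕ Fin g → ℂ), finrank ℂ Y = n →
    Stab (LZ Z) Y → tr Z Y ≠ 0 → ∃ U ≤ Y, IrS (LZ Z) U ∧ tr Z U ≠ 0 := by
  induction n using Nat.strong_induction_on with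
  | _ n ih =>
    intro Y hn hY ht
    have hne : Y ≠ ⊥ := by
      rintro rfl
      apply ht
      unfold tr pd qd
      rw [bot_inf_eq, bot_inf_eq, sub_self]
    obtain ⟨U, hU, hU'⟩ := exists_irS _ Y rfl hne hY
    by_cases h0 : tr Z U = 0
    · obtain ⟨C, hC, hCY, h1, h2⟩ := h.cred.compl hU'.2.1 hY hU
      have h3 := tr_split hU'.2.1 hC h1 h2
      have h4 := finrank_split h1 h2
      have h5 : 0 < finrank ℂ U := by
        rw [Nat.pos_iff_ne_zero, ne_eq, Submodule.finrank_eq_zero]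
        exact hU'.1
      obtain ⟨U2, a, b⟩ := ih (finrank ℂ C) (by omega) C rfl hC (by
        rw [h0, zero_add] at h3
        rw [h3]
        exact ht)
      exact ⟨U2, a.trans hCY, b⟩
    · exact ⟨U, hU, hU', h0⟩

theorem cc_neg {d : ℚ} (hd : 0 < d) {s : ℂ} (hs : s * s = -(d : ℂ)) : cc s = -s := by
  rcases aut_pm hs cc with h1 | h1
  · exfalso
    have h2 : s * (starRingEnd ℂ) s = (Complex.normSq s : ℂ) := Complex.mul_conj s
    have h3 : (starRingEnd ℂ) s = s := h1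
    rw [h3, hs] at h2
    have h4 : (-(d : ℝ)) = Complex.normSq s := by exact_mod_cast h2
    have h5 : (0 : ℝ) < d := by exact_mod_cast hd
    have h6 := Complex.normSq_nonneg s
    linarith
  · exact h1

/-- Eigenspaces of endomorphisms are stable. -/
theorem stab_VE {ψ : Matrix (Fin g ⊕ Fin g) (Fin g ⊕ Fin g) ℚ}
    (hψ : qm ψ * DZ Z = DZ Z * qm ψ) (s : ℂ) : Stab (LZ Z) (VE ψ s) := by
  intro X hX u hu
  rw [mem_VE] at hu ⊢
  rw [mulVec_mulVec, ← commL_of hψ X hX, ← mulVec_mulVec, hu, mulVec_smul]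

/-- Unbalanced abelian varieties. -/
theorem exists_tr_ne {d : ℚ} (u : Unbalanced (AVZ h) d) : 0 < d ∧
    ∃ ψ : Matrix (Fin g ⊕ Fin g) (Fin g ⊕ Fin g) ℚ, qm ψ * DZ Z = DZ Z * qm ψ ∧
      ψ * ψ = -(d • (1 : Matrix (Fin g ⊕ Fin g) (Fin g ⊕ Fin g) ℚ)) ∧
      ∃ U, IrS (LZ Z) U ∧ tr Z U ≠ 0 := by
  obtain ⟨hd, f, Ψ, s, hΨ, hsq, hs, hne⟩ := u
  have hc := (hom_iff' h f).1 ⟨Ψ, hΨ⟩
  have hΨ' : ∀ v, Ψ (perOne Z v) = perOne Z (LinearMap.toMatrix' f *ᵥ v) := by
    intro v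
    have h2 := hΨ v
    have h3 : LinearMap.toMatrix' f *ᵥ v = f v := by
      rw [← Matrix.toLin'_apply, Matrix.toLin'_toMatrix']
    rw [h3]
    exact h2
  refine ⟨hd, LinearMap.toMatrix' f, hc, ?_, ?_⟩
  · have h1 : f * f = -(d • (1 : Module.End ℚ (Fin g ⊕ Fin g → ℚ))) :=
      LinearMap.ext fun w => hsq w
    have h2 := congrArg LinearMap.toMatrix' h1
    rw [LinearMap.toMatrix'_mul] at h2
    rw [h2, map_neg, map_smul, LinearMap.toMatrix'_one]
  · have h1 := pd_sig h hc hΨ' s (U := VE (LinearMap.toMatrix' f) s) fun v => mem_VE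
    have h2 := pd_sig h hc hΨ' (-s) (U := VE (LinearMap.toMatrix' f) (-s)) fun v => mem_VE
    have h3 : cjS cc (VE (LinearMap.toMatrix' f) s) = VE (LinearMap.toMatrix' f) (-s) := by
      rw [VE_cj, cc_neg hd hs]
    rw [← h3, pd_cc] at h2
    have h4 : Ψ - (-s) • LinearMap.id = Ψ + s • LinearMap.id := by
      refine LinearMap.ext fun v => ?_
      simp only [LinearMap.sub_apply, LinearMap.add_apply, LinearMap.smul_apply]
      module
    rw [h4] at h2
    have ht : tr Z (VE (LinearMap.toMatrix' f) s) ≠ 0 := by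
      intro h5
      apply hne
      unfold tr at h5
      rw [h1, h2, sub_eq_zero] at h5
      exact_mod_cast h5
    obtain ⟨U, -, hU, hU'⟩ := exists_irr_tr h _ _ rfl (stab_VE hc s) ht
    exact ⟨U, hU, hU'⟩

include h in
/-- Square roots of negative numbers in the endomorphism algebra. -/
theorem comm_KW {U : Submodule ℂ (Fin g ⊕ Fin g → ℂ)} (hU : IrS (LZ Z) U)
    {φ : Matrix (Fin g ⊕ Fin g) (Fin g ⊕ Fin g) ℚ} {α : ℂ} {δ : ℚ} (k : KW Z U φ α δ)
    (ht : tr Z U ≠ 0) {ψ : Matrix (Fin g ⊕ Fin g) (Fin g ⊕ Fin g) ℚ}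
    (hψ : qm ψ * DZ Z = DZ Z * qm ψ) {d : ℚ} (hd : 0 < d)
    (hψψ : ψ * ψ = -(d • (1 : Matrix (Fin g ⊕ Fin g) (Fin g ⊕ Fin g) ℚ))) :
    ∃ y : ℚ, d = y ^ 2 * δ := by
  have hUb : IrS (LZ Z) (cjS cc U) := hU.cj gal_LZ cc
  have hcom := commL_of hψ
  -- the endomorphism preserves `U`
  have h1 : ∀ u ∈ U, qm ψ *ᵥ u ∈ U := by
    let T : (Fin g ⊕ Fin g → ℂ) →ₗ[ℂ] (Fin g ⊕ Fin g → ℂ) :=
      (LinearMap.id - pj φ α).comp (mulVecLin (qm ψ))
    have hTa : ∀ v, T v = qm ψ *ᵥ v - pj φ α (qm ψ *ᵥ v) := fun v => rfl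
    have hTm : ∀ v, T v ∈ cjS cc U := by
      intro v
      rw [hTa]
      exact k.compl (qm ψ *ᵥ v)
    have hTc : ∀ X ∈ LZ Z, ∀ u ∈ U, T (X *ᵥ u) = X *ᵥ T u := by
      intro X hX u _
      rw [hTa, hTa, mulVec_sub]
      have e1 : qm ψ *ᵥ (X *ᵥ u) = X *ᵥ (qm ψ *ᵥ u) := by
        rw [mulVec_mulVec, mulVec_mulVec, hcom X hX]
      rw [e1]
      congr 1
      have e2 := k.pU_comm hX (qm ψ *ᵥ u)
      rwa [k.pU_coe, k.pU_coe] at e2
    have hT0 : ¬ ∃ u ∈ U, T u ≠ 0 := by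
      intro h0
      have e1 := pd_iso hTc (hU.inj hTc h0) hU.2.1 (hU.map_eq hUb hTc h0 fun u _ => hTm u)
      rw [pd_cc] at e1
      apply ht
      unfold tr
      rw [e1, sub_self]
    push Not at hT0
    intro u hu
    have e1 := hT0 u hu
    rw [hTa, sub_eq_zero] at e1
    rw [e1]
    exact k.pj_mem _
  -- the endomorphism is a scalar on `U`
  obtain ⟨γ, hγ⟩ : ∃ γ : ℂ, γ * γ = -(d : ℂ) := by
    obtain ⟨γ, hγ⟩ := IsAlgClosed.exists_pow_nat_eq (-(d : ℂ)) (n := 2) (by norm_num)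
    exact ⟨γ, by rw [← sq, hγ]⟩
  have hsq : ∀ v, qm ψ *ᵥ (qm ψ *ᵥ v) = (γ * γ) • v := by
    intro v
    rw [mulVec_mulVec, ← qm_mul, hψψ, hγ]
    have h1 : qm (-(d • (1 : Matrix (Fin g ⊕ Fin g) (Fin g ⊕ Fin g) ℚ))) = (-(d : ℂ)) • 1 := by
      ext i j
      simp only [Matrix.map_apply, Matrix.neg_apply, Matrix.smul_apply, Matrix.one_apply,
        smul_eq_mul]
      split_ifs <;> simp
    rw [h1, smul_mulVec, one_mulVec]
  obtain ⟨c, hc, hcU⟩ : ∃ c : ℂ, c * c = -(d : ℂ) ∧ U ≤ VE ψ c := by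
    rcases hU.2.2 (U ⊓ VE ψ γ) inf_le_left (hU.2.1.inf (stab_VE hψ γ)) with h2 | h2
    · refine ⟨-γ, by rw [neg_mul_neg]; exact hγ, fun u hu => ?_⟩
      have h3 : qm ψ *ᵥ u + γ • u ∈ U ⊓ VE ψ γ := by
        refine ⟨U.add_mem (h1 u hu) (U.smul_mem _ hu), ?_⟩
        rw [SetLike.mem_coe, mem_VE, mulVec_add, hsq, mulVec_smul]
        module
      rw [h2, Submodule.mem_bot] at h3
      rw [mem_VE, neg_smul]
      exact eq_neg_of_add_eq_zero_left h3
    · exact ⟨γ, hγ, inf_eq_left.1 h2⟩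
  have hcUb : cjS cc U ≤ VE ψ (-c) := by
    have h2 := cjS_mono (σ := cc) hcU
    rwa [VE_cj, cc_neg hd hc] at h2
  -- the endomorphism is a multiple of `φ`
  have h0 := k.al_ne
  have hmul : ∀ v, qm ψ *ᵥ v = (c / α) • (qm φ *ᵥ v) := by
    intro v
    have e1 : v = pj φ α v + (v - pj φ α v) := by abel
    have e2 : pj φ α v ∈ U := k.pj_mem v
    have e3 : v - pj φ α v ∈ cjS cc U := k.compl v
    have e4 := (k.mem _).1 e2
    have e5 : qm φ *ᵥ (v - pj φ α v) = -α • (v - pj φ α v) := (k.mem_cj _).1 e3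
    have e6 := mem_VE.1 (hcU e2)
    have e7 := mem_VE.1 (hcUb e3)
    rw [e1, mulVec_add, mulVec_add, e4, e5, e6, e7, smul_add, smul_smul, smul_smul,
      mul_neg, div_mul_cancel₀ _ h0]
  have hent : ∀ i j, ((ψ i j : ℚ) : ℂ) = (c / α) * ((φ i j : ℚ) : ℂ) := by
    intro i j
    have e1 := congrFun (hmul (Pi.single j 1)) i
    rw [Pi.smul_apply, mulVec_single_one, mulVec_single_one] at e1
    exact e1
  obtain ⟨i, j, hij⟩ : ∃ i j, φ i j ≠ 0 := by
    by_contra hcon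
    push Not at hcon
    have e1 : φ = 0 := by
      ext i j
      exact hcon i j
    obtain ⟨v, hv, hv0⟩ := Submodule.exists_mem_ne_zero_of_ne_bot hU.1
    have e2 := (k.mem v).1 hv
    rw [e1, qm_zero, zero_mulVec] at e2
    exact (smul_ne_zero h0 hv0) e2.symm
  have hij' : ((φ i j : ℚ) : ℂ) ≠ 0 := by exact_mod_cast hij
  refine ⟨ψ i j / φ i j, ?_⟩
  have e1 : (c / α) = ((ψ i j / φ i j : ℚ) : ℂ) := by
    rw [Rat.cast_div, hent i j, mul_div_cancel_right₀ _ hij']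
  have e2 : c = ((ψ i j / φ i j : ℚ) : ℂ) * α := by
    rw [← e1, div_mul_cancel₀ _ h0]
  have e3 : (d : ℂ) = ((ψ i j / φ i j : ℚ) : ℂ) ^ 2 * (δ : ℂ) := by
    have e4 := k.al
    rw [e2] at hc
    linear_combination hc - ((ψ i j / φ i j : ℚ) : ℂ) ^ 2 * e4
  exact_mod_cast e3

/-- The uniqueness of the field. -/
theorem uniq (hall : ∀ U, IrS (LZ Z) U → tr Z U ≠ 0 → ∃ φ α δ, KW Z U φ α δ) {d d' : ℚ}
    (u : Unbalanced (AVZ h) d) (u' : Unbalanced (AVZ h) d') : ∃ r : ℚ, d' = d * r ^ 2 := by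
  obtain ⟨hd, ψ, hψ, hψψ, U, hU, ht⟩ := exists_tr_ne h u
  obtain ⟨hd', ψ', hψ', hψψ', -⟩ := exists_tr_ne h u'
  obtain ⟨φ, α, δ, k⟩ := hall U hU ht
  obtain ⟨y, hy⟩ := comm_KW h hU k ht hψ hd hψψ
  obtain ⟨y', hy'⟩ := comm_KW h hU k ht hψ' hd' hψψ'
  have hy0 : y ≠ 0 := by
    rintro rfl
    rw [hy] at hd
    norm_num at hd
  refine ⟨y' / y, ?_⟩
  rw [hy, hy', div_pow]
  field_simp

include h in
/-- Self-dual submodules have trace zero. -/
theorem tr_sdu {U : Submodule ℂ (Fin g ⊕ Fin g → ℂ)} (hU : IrS (LZ Z) U) (hs : SDu Z U) :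
    tr Z U = 0 := by
  obtain ⟨b, h0, hb⟩ := hs
  have h1 := tr_dual h hU hU h0 hb
  omega

end Z

theorem real_case {Y : AV} (hs : IsSimple Y) {a : Module.End ℚ Y.H} (ha : RealMax Y a) {d d' : ℚ}
    (u : Unbalanced Y d) (u' : Unbalanced Y d') : ∃ r : ℚ, d' = d * r ^ 2 := by
  obtain ⟨g, Z, h, e, he, hes⟩ := exists_iso Y
  have hs' : IsSimple (AVZ h) := simple_iso e he hs
  obtain ⟨a', ha'⟩ := realMax_iso e he hes ha
  have v : Unbalanced (AVZ h) d := Unbalanced.iso e.symm hes u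
  have v' : Unbalanced (AVZ h) d' := Unbalanced.iso e.symm hes u'
  have k := RealMax.rf h ha'
  have hg : 0 < g := by
    rw [Nat.pos_iff_ne_zero]
    rintro rfl
    obtain ⟨y, hy⟩ := hs'.1
    apply hy
    exact Subsingleton.elim (α := Fin 0 ⊕ Fin 0 → ℚ) _ _
  exact uniq h (fun U hU ht => absurd (tr_sdu h hU (k.sdu h (simple_AVZ h hs') hg hU)) ht) v v'

theorem small_case {Y : AV} (hs : IsSimple Y) (hcm : ¬ HasCMult Y) (hk : finrank ℚ Y.H ≤ 6)
    {d d' : ℚ} (u : Unbalanced Y d) (u' : Unbalanced Y d') : ∃ r : ℚ, d' = d * r ^ 2 := by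
  obtain ⟨g, Z, h, e, he, hes⟩ := exists_iso Y
  have hs' : IsSimple (AVZ h) := simple_iso e he hs
  have v : Unbalanced (AVZ h) d := Unbalanced.iso e.symm hes u
  have v' : Unbalanced (AVZ h) d' := Unbalanced.iso e.symm hes u'
  have hcm' : ¬ HasCMult (AVZ h) := fun h1 => hcm (h1.iso e he hes)
  have hg : 0 < g := by
    rw [Nat.pos_iff_ne_zero]
    rintro rfl
    obtain ⟨y, hy⟩ := hs'.1
    apply hy
    exact Subsingleton.elim (α := Fin 0 ⊕ Fin 0 → ℚ) _ _
  have hk' : finrank ℚ (AVZ h).H ≤ 6 := by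
    rw [← e.finrank_eq]
    exact hk
  refine uniq h (fun U hU ht => ?_) v v'
  rcases (SmallDim.lc h hs' hg ⟨hk', fun h1 => absurd h1 hcm'⟩ hU).or with ⟨h1, -⟩ | h1
  · exact absurd (tr_sdu h hU h1) ht
  · obtain ⟨φ, α, δ, k, -⟩ := h1
    exact ⟨φ, α, δ, k⟩

/-- The unbalanced quadratic field of a simple abelian variety is unique. -/
theorem t_UNB : Pool.Agent.N178.HX.S_UNB := by
  intro Y hs hcm hk d d' u u'
  rcases hk with k | k | ⟨a, ha, -⟩ | ⟨-, k⟩ | ⟨⟨a, ha⟩, -⟩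
  · exact small_case hs hcm k u u'
  · obtain ⟨d₀, j, hq, -⟩ := k
    obtain ⟨y, hy⟩ := hs.1
    have key : ∀ {c : ℚ}, Unbalanced Y c → ∃ b : ℚ, c = d₀ * b ^ 2 := by
      rintro c ⟨hc, f, Ψ, s, hΨ, hsq, -⟩
      obtain ⟨p, q, hpq⟩ := hq.max f ⟨Ψ, hΨ⟩
      have hf : ∀ w, f w = p • w + q • j w := fun w => by
        rw [hpq]
        rfl
      have h1 : ∀ w, (p ^ 2 - q ^ 2 * d₀ + c) • w + (2 * p * q) • j w = 0 := by
        intro w
        have h2 := hsq w
        rw [hf, hf, map_add, map_smul, map_smul, hq.sq] at h2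
        have h3 : (p ^ 2 - q ^ 2 * d₀ + c) • w + (2 * p * q) • j w =
            (p • (p • w + q • j w) + q • (p • j w + q • -(d₀ • w))) - -(c • w) := by module
        rw [h3, h2, sub_self]
      by_cases hpq0 : 2 * p * q = 0
      · have h2 := h1 y
        rw [hpq0, zero_smul, add_zero] at h2
        have h3 := (smul_eq_zero.1 h2).resolve_right hy
        have hp : p = 0 ∨ q = 0 := by
          rcases mul_eq_zero.1 hpq0 with h4 | h4
          · left
            linarith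
          · exact Or.inr h4
        rcases hp with rfl | rfl
        · exact ⟨q, by linear_combination h3⟩
        · exfalso
          nlinarith [sq_nonneg p]
      · exfalso
        -- `j` would be a scalar
        set r : ℚ := -((p ^ 2 - q ^ 2 * d₀ + c) / (2 * p * q)) with hr
        have h2 : ∀ w, j w = r • w := by
          intro w
          have h3 := h1 w
          have h4 : (2 * p * q) • (j w - r • w) = 0 := by
            rw [smul_sub, smul_smul]
            have h5 : (2 * p * q) * r = -(p ^ 2 - q ^ 2 * d₀ + c) := by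
              rw [hr, mul_comm, neg_mul, div_mul_cancel₀ _ hpq0]
            rw [h5, ← h3]
            module
          exact sub_eq_zero.1 ((smul_eq_zero.1 h4).resolve_left hpq0)
        have h3 := hq.sq y
        rw [h2, h2, smul_smul] at h3
        have h4 : (r * r + d₀) • y = 0 := by
          rw [add_smul, h3, neg_add_cancel]
        have h5 := (smul_eq_zero.1 h4).resolve_right hy
        have h6 := hq.pos
        nlinarith [mul_self_nonneg r]
    obtain ⟨b, hb⟩ := key u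
    obtain ⟨b', hb'⟩ := key u'
    have hb0 : b ≠ 0 := by
      rintro rfl
      have h1 := u.1
      rw [hb] at h1
      norm_num at h1
    refine ⟨b' / b, ?_⟩
    rw [hb, hb', div_pow]
    field_simp
  · exact real_case hs ha u u'
  · exfalso
    obtain ⟨hd, f, Ψ, s, hΨ, hsq, -⟩ := u
    obtain ⟨c, hc⟩ := k f ⟨Ψ, hΨ⟩
    obtain ⟨y, hy⟩ := hs.1
    have h1 := hsq y
    rw [hc] at h1
    change c • (c • y) = -(d • y) at h1
    have h2 : (c * c + d) • y = 0 := by
      rw [add_smul, mul_smul, h1, neg_add_cancel]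
    have h3 := (smul_eq_zero.1 h2).resolve_right hy
    nlinarith [mul_self_nonneg c]
  · exact real_case hs ha u u'

end

end Pool.Agent.N438.HX
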